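import Pool.Agent.Mg.F7bf9b2a.G24b070

open scoped Manifold ContDiff
open Pool.Agent.MP_7bf9b2_an

theorem Pool.Agent.Results.MP_7bf9b2_an.ZeroEntropy.result {V : Type} [NormedAddCommGroup V]
    [NormedSpace ℝ V] [FiniteDimensional ℝ V] {M : Type} [TopologicalSpace M] [T2Space M]
    [CompactSpace M] [ConnectedSpace M] [ChartedSpace V M] [IsManifold 𝓘(ℝ, V) ∞ M]
    [MeasurableSpace (TT V M)] [BorelSpace (TT V M)]
    (k : ℕ∞) (hk : 2 ≤ k) (L : TT V M → ℝ) (hL : IsTonelli L) (m : ℕ)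
    (η : Fin m → TB V M → ℝ) (hη : ∀ i, IsClosedForm (η i)) :
    ∃ O ∈ residual (PotK V M k), ∀ f ∈ O, ∀ Φ : Flow ℝ (TT V M),
      IsEL (fun z => L z + f.toFun (z.1.proj, z.2)) Φ →
      ∃ U ∈ residual (Fin m → ℝ), ∀ c ∈ U,
        ZeroEnt Φ fun z => L z + f.toFun (z.1.proj, z.2) - ∑ i, c i * η i z.1 :=
  Zc.main_All k hk L hL m η hη
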